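import Mathlib
import Pool.Agent.H.MP_24e13c_co.A

set_option autoImplicit false

namespace Pool.Agent.Results.MP_24e13c_co.Chordal

open SimpleGraph Finset

/-- weight of the closed neighbourhood -/
def nsum {V : Type} [Fintype V] (G : SimpleGraph V) [DecidableRel G.Adj] (f : V → ℝ) (v : V) : ℝ :=
  f v + ∑ u ∈ G.neighborFinset v, f u

/-- real domination number, in the extended reals -/
noncomputable def gammaR {V : Type} [Fintype V] (G : SimpleGraph V) [DecidableRel G.Adj] : EReal :=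
  ⨅ (f : V → ℝ) (_ : ∀ v, 1 ≤ nsum G f v), ((∑ v, f v : ℝ) : EReal)

/-- domination number -/
noncomputable def gamma {V : Type} (G : SimpleGraph V) : ℕ :=
  sInf {k | ∃ D : Finset V, (∀ v, v ∈ D ∨ ∃ u ∈ D, G.Adj u v) ∧ D.card = k}

open Pool.Agent.H.MP_24e13c_co in
theorem result (V : Type) [Fintype V] (G : SimpleGraph V) [DecidableRel G.Adj]
    (hG : ∀ n, 4 ≤ n → IsEmpty (cycleGraph n ↪g G)) :
    gammaR G = (gamma G : EReal) ↔ ∃ f : V → ℝ, (∀ v, 0 ≤ f v) ∧ ∀ v, nsum G f v = 1 := by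
  classical
  have hn : ∀ f v, nsum G f v = ∑ u ∈ cn G v, f u := fun f v => (sum_cn G f v).symm
  obtain ⟨D0, hD0, hc0⟩ : gamma G ∈
      {k | ∃ D : Finset V, (∀ v, v ∈ D ∨ ∃ u ∈ D, G.Adj u v) ∧ D.card = k} :=
    Nat.sInf_mem ⟨_, univ, fun v => Or.inl (mem_univ v), rfl⟩
  have up : ∀ g : V → ℝ, (∀ v, 1 ≤ nsum G g v) → gammaR G ≤ ((∑ v, g v : ℝ) : EReal) :=
    fun g hg => iInf₂_le g hg
  constructor
  · intro h
    by_contra hf
    simp only [hn] at hf
    obtain ⟨⟨v⟩, g, hg, h0⟩ := farkas G hf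
    have h1 := up g (by simpa only [hn] using hg)
    rw [h, h0, ← hc0] at h1
    have h2 : 0 < D0.card := by
      rcases hD0 v with e | ⟨u, e, -⟩ <;> exact card_pos.2 ⟨_, e⟩
    have h3 : ((D0.card : ℝ) : EReal) ≤ ((0 : ℝ) : EReal) := h1
    rw [EReal.coe_le_coe_iff] at h3
    have h4 : (0 : ℝ) < D0.card := by exact_mod_cast h2
    linarith
  · rintro ⟨f, h0, h1⟩
    simp only [hn] at h1
    obtain ⟨D, hD, hc⟩ := dom G hG f h0 h1
    have h2 : gamma G ≤ D.card := Nat.sInf_le ⟨D, hD, rfl⟩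
    apply le_antisymm
    · have := up (fun v => if v ∈ D0 then 1 else 0) fun v => by
        rw [hn]
        obtain ⟨u, hu, hu'⟩ : ∃ u ∈ D0, u ∈ cn G v := by
          rcases hD0 v with e | ⟨u, e, e'⟩
          · exact ⟨v, e, (mem_cn G v v).2 (Or.inl rfl)⟩
          · exact ⟨u, e, (mem_cn G v u).2 (Or.inr e'.symm)⟩
        have := single_le_sum (f := fun v => if v ∈ D0 then (1 : ℝ) else 0)
          (fun i _ => by positivity) hu'
        simpa only [hu, if_true] using this
      have e : (∑ v, if v ∈ D0 then (1 : ℝ) else 0) = gamma G := by simp [hc0]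
      rw [e] at this
      exact this
    · refine le_iInf₂ fun g hg => ?_
      have h3 := weak G f g h0 h1 (by simpa only [hn] using hg)
      have h4 : (gamma G : ℝ) ≤ D.card := by exact_mod_cast h2
      exact EReal.coe_le_coe_iff.2 (by linarith : (gamma G : ℝ) ≤ ∑ v, g v)

end Pool.Agent.Results.MP_24e13c_co.Chordal
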